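import Pool.Agent.H4.UZ.Fi
import Pool.Graph.R_seed8.Results.MP_6bc78b_nt.SimpleZerosOfZ

/-!
# MP_6bc78b_nt: universality of zeta at the simple zeros of Hardy's function

No hypothesis on the zeros is made.  Let `h_1, …, h_r > 0` be such that the numbers `h_j log p` (`p` prime) are linearly
independent over the rationals: any `h > 0` if `r = 1`, and by Baker's theorem any positive algebraic numbers which are
linearly independent over the rationals.  Let `K_j` be compact subsets of the strip `1/2 < Re z < 1`, `A_j` arbitrary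
sets of functions, `e_j > 0`, and let `J(x)` be the set of the real `t` such that for every `j` the function
`ζ(z + i h_j t)` is closer than `x e_j` to a member of `A_j`, uniformly on `K_j`.  Let `P(x)` be the product over `j` of
the lower densities of the sets of the `t` for which `ζ(z + i t)` is closer than `x e_j` to a member of `A_j` on `K_j`.

1. For all `x` outside a countable set: `J(x)` has the density `P(x)`; among all the nontrivial zeros `β + iγ`, counted
   with multiplicity, those with `γ ∈ J(x)` have the proportion `P(x)`; and the number of the simple zeros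
   `γ ∈ (0, T]` of `Z` in `J(x)` is at least `((2 - c) P(x) - o(1)) N(T)`, `c = 1/2 + cot(1/√2)/√2`, `2 - c > 0.6725`.
   So the proportion of the simple zeros of `Z` relative to every such approximation event is at least `0.6725`.
2. For single functions `f_j` the following are equivalent: (a) every `f_j` is a target on `K_j` (it extends to the hull
   of `K_j` as a continuous function which is holomorphic in the interior, and without zeros or identically zero on
   each component of the interior); (b) for every `ε > 0` there is `κ > 0` such that for all large `T` at least `κ N(T)`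
   simple zeros `γ` of `Z` in `(0, T]` have the property that every `ζ(z + i h_j γ)` is closer than `ε` to `f_j` on `K_j`;
   (c) for every `ε > 0` there are `κ > 0` and arbitrarily large `T` such that at least `κ N(T)` zeros (with
   multiplicity) have ordinates with this property.  In particular every function which can be approximated by the
   shifts `ζ(z + iτ)`, `τ` real, can be approximated by the shifts by the simple zeros of `Z`.
-/

open Filter Topology Complex Set MeasureTheory

namespace Pool.Agent.Results.MP_6bc78b_nt.UniversalityAtSimpleZeros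

/-- the phase `exp (i ϑ(t))`, with `ϑ(t) = arg Γ(1/4 + i t / 2) - (t / 2) log π` -/
noncomputable def phase (t : ℝ) : ℂ :=
  Gamma (1 / 4 + I * t / 2) / ‖Gamma (1 / 4 + I * t / 2)‖ * cexp (-(I * (t / 2) * Real.log Real.pi))

/-- Hardy's function `Z(t) = exp (i ϑ(t)) ζ(1/2 + i t)` -/
noncomputable def Z (t : ℝ) : ℂ := phase t * riemannZeta (1 / 2 + I * t)

/-- the simple real zeros of `Z` in `(0, T]` which belong to `E` -/
def simpleZeros (T : ℝ) (E : Set ℝ) : Set ℝ := {t : ℝ | 0 < t ∧ t ≤ T ∧ Z t = 0 ∧ deriv Z t ≠ 0 ∧ t ∈ E}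

/-- the nontrivial zeros of zeta with ordinate in `(0, T]` -/
def zeros (T : ℝ) : Set ℂ :=
  {s : ℂ | riemannZeta s = 0 ∧ 0 < s.re ∧ s.re < 1 ∧ 0 < s.im ∧ s.im ≤ T}

/-- the number of nontrivial zeros with ordinate in `(0, T]`, counted with multiplicity -/
noncomputable def N (T : ℝ) : ℕ := ∑ᶠ s ∈ zeros T, analyticOrderNatAt riemannZeta s

/-- the same for the zeros whose ordinate belongs to `E` -/
noncomputable def NIn (T : ℝ) (E : Set ℝ) : ℕ :=
  ∑ᶠ s ∈ {s : ℂ | s ∈ zeros T ∧ s.im ∈ E}, analyticOrderNatAt riemannZeta s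

/-- lower density of a set of real numbers -/
noncomputable def density (E : Set ℝ) : ℝ :=
  liminf (fun T : ℝ => (volume (E ∩ Icc 0 T)).toReal / T) atTop

/-- `g` is closer than `δ` to a member of `A`, uniformly on `K` -/
def Near (K : Set ℂ) (A : Set (ℂ → ℂ)) (δ : ℝ) (g : ℂ → ℂ) : Prop :=
  ∃ f ∈ A, ∃ δ' < δ, ∀ z ∈ K, ‖g z - f z‖ ≤ δ'

/-- the joint approximation event -/
def J {r : ℕ} (h e : Fin r → ℝ) (K : Fin r → Set ℂ) (A : Fin r → Set (ℂ → ℂ)) (x : ℝ) : Set ℝ :=
  {t : ℝ | ∀ j, Near (K j) (A j) (x * e j) (fun z => riemannZeta (z + I * (h j * t)))}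

/-- the product of the lower densities of the single events, without dilations -/
noncomputable def P {r : ℕ} (e : Fin r → ℝ) (K : Fin r → Set ℂ) (A : Fin r → Set (ℂ → ℂ)) (x : ℝ) : ℝ :=
  ∏ j, density {t : ℝ | Near (K j) (A j) (x * e j) (fun z => riemannZeta (z + I * t))}

/-- the numbers `h_j log p` are linearly independent over the rationals -/
def Indep {r : ℕ} (h : Fin r → ℝ) : Prop :=
  LinearIndependent ℚ (fun x : Fin r × Nat.Primes => h x.1 * Real.log (x.2 : ℕ))

/-- the hypotheses on the dilations, the scales and the compact sets -/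
def Admissible {r : ℕ} (h e : Fin r → ℝ) (K : Fin r → Set ℂ) : Prop :=
  (∀ j, 0 < h j) ∧ Indep h ∧ (∀ j, 0 < e j) ∧ ∀ j, IsCompact (K j) ∧ ∀ z ∈ K j, 1 / 2 < z.re ∧ z.re < 1

/-- the union of `K` and of the bounded components of its complement -/
def hull (K : Set ℂ) : Set ℂ := K ∪ {z | z ∉ K ∧ Bornology.IsBounded (connectedComponentIn Kᶜ z)}

/-- `f` extends to a continuous function on the hull which is holomorphic in the interior of the hull and on each
component of the interior either without zeros or identically zero -/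
def IsTarget (K : Set ℂ) (f : ℂ → ℂ) : Prop :=
  ∃ g : ℂ → ℂ, (∀ z ∈ K, g z = f z) ∧ ContinuousOn g (hull K) ∧ DifferentiableOn ℂ g (interior (hull K)) ∧
    ∀ z ∈ interior (hull K),
      (∀ w ∈ connectedComponentIn (interior (hull K)) z, g w ≠ 0) ∨
      (∀ w ∈ connectedComponentIn (interior (hull K)) z, g w = 0)

/-- the constant `1/2 + cot(1/√2)/√2 = 1.3274…` -/
noncomputable def c : ℝ := 1 / 2 + Real.cot (1 / Real.sqrt 2) / Real.sqrt 2

open Pool.Agent.H4.UZ (Dat PE zS zE zr_all)

section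

variable {r : ℕ} {h e : Fin r → ℝ} {K : Fin r → Set ℂ}

/-- the data -/
noncomputable def dat (ha : Admissible h e K) (A : Fin r → Set (ℂ → ℂ)) : Dat r where
  h := h
  K := K
  A := A
  e := e
  hh := ha.1
  hK := fun j => (ha.2.2.2 j).1
  hKs := fun j z hz => (ha.2.2.2 j).2 z hz
  he := ha.2.2.1
  hind := Pool.Agent.H4.UZ.Indep.hind ha.2.1

lemma dat_S (ha : Admissible h e K) (A : Fin r → Set (ℂ → ℂ)) (x : ℝ) : (dat ha A).S x = J h e K A x := by
  ext t
  refine forall_congr' fun j => ?_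
  have h1 : (fun z => riemannZeta (z + (h j * t : ℝ) * I)) = fun z => riemannZeta (z + I * (h j * t)) := by
    funext z
    congr 1
    push_cast
    ring
  change Near (K j) (A j) (x * e j) (fun z => riemannZeta (z + (h j * t : ℝ) * I)) ↔ _
  rw [h1]

lemma dat_P (ha : Admissible h e K) (A : Fin r → Set (ℂ → ℂ)) (x : ℝ) :
    ∏ j, Pool.Agent.H4.UZ.ld (((dat ha A).one j).S x) = P e K A x := by
  refine Finset.prod_congr rfl fun j _ => ?_
  have h1 : ((dat ha A).one j).S x = {t : ℝ | Near (K j) (A j) (x * e j) (fun z => riemannZeta (z + I * t))} := by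
    ext t
    have h2 : (fun z => riemannZeta (z + (1 * t : ℝ) * I)) = fun z => riemannZeta (z + I * t) := by
      funext z
      congr 1
      push_cast
      ring
    unfold Dat.S
    simp only [Set.mem_ofPred_eq, Fin.forall_fin_one]
    change Near (K j) (A j) (x * e j) (fun z => riemannZeta (z + (1 * t : ℝ) * I)) ↔ _
    rw [h2]
  rw [h1]
  rfl

end

lemma NIn_eq (T : ℝ) (E : Set ℝ) : NIn T E = PE E 0 T := by
  unfold NIn PE H370.mult
  have h1 : {s : ℂ | s ∈ zeros T ∧ s.im ∈ E} = zE E 0 T := by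
    ext s
    simp only [zeros, zE, H370.zset, Set.mem_ofPred_eq]
    tauto
  rw [h1]

lemma N_eq (T : ℝ) : N T = H370.NN riemannZeta 0 T :=
  Pool.Agent.Results.MP_6bc78b_nt.SimpleZerosOfZ.N_eq T

lemma simpleZeros_fin (T : ℝ) (E : Set ℝ) : (simpleZeros T E).Finite :=
  (Pool.Agent.Results.MP_6bc78b_nt.SimpleZerosOfZ.simpleZeros_finite T).subset fun _ ht => ⟨ht.1, ht.2.1, ht.2.2.1, ht.2.2.2.1⟩

lemma Z_zero_iff (t : ℝ) : Z t = 0 ↔ riemannZeta (1 / 2 + I * t) = 0 :=
  Pool.Agent.Results.MP_6bc78b_nt.SimpleZerosOfZ.Z_zero_iff t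

lemma zS_le (T : ℝ) (E : Set ℝ) : (zS E 0 T).ncard ≤ (simpleZeros T E).ncard := by
  refine Set.ncard_le_ncard_of_injOn (fun s => s.im) ?_ ?_ (simpleZeros_fin T E)
  · rintro s ⟨⟨h1, h2, h3, h4, h5⟩, h6, h7, h8⟩
    have hs : (1 / 2 + I * s.im : ℂ) = s := by
      apply Complex.ext
      · simp [h6]
      · simp
    refine ⟨h3, h4, ?_, ?_, h8⟩
    · rw [Z_zero_iff, hs]; exact h5
    · apply Pool.Agent.Results.MP_6bc78b_nt.SimpleZerosOfZ.simple_of_order
      · rw [hs]; exact h5
      · rw [hs]; exact h7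
  · rintro s ⟨-, h6, -⟩ s' ⟨-, h6', -⟩ h
    exact Complex.ext (h6.trans h6'.symm) h

lemma simpleZeros_le (T : ℝ) (E : Set ℝ) : (simpleZeros T E).ncard ≤ NIn T E := by
  classical
  have hfin : {s : ℂ | s ∈ zeros T ∧ s.im ∈ E}.Finite :=
    (Pool.Agent.Results.MP_6bc78b_nt.SimpleZerosOfZ.zeros_finite T).subset fun s hs => hs.1
  have h1 : (simpleZeros T E).ncard ≤ {s : ℂ | s ∈ zeros T ∧ s.im ∈ E}.ncard := by
    refine Set.ncard_le_ncard_of_injOn (fun t : ℝ => (1 / 2 + I * t : ℂ)) ?_ ?_ hfin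
    · rintro t ⟨h1, h2, h3, h4, h5⟩
      refine ⟨⟨(Z_zero_iff t).1 h3, ?_, ?_, ?_, ?_⟩, ?_⟩ <;> simp <;> first | assumption | norm_num
    · intro a _ b _ hab
      have := congrArg Complex.im hab
      simpa using this
  refine h1.trans ?_
  unfold NIn
  rw [finsum_mem_eq_finite_toFinset_sum _ hfin, Set.ncard_eq_toFinset_card _ hfin, Finset.card_eq_sum_ones]
  refine Finset.sum_le_sum fun s hs => ?_
  rw [Set.Finite.mem_toFinset] at hs
  exact H370.Loc.mult_pos' H370.good_zeta hs.1.2.2.2.1 hs.1.1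

theorem result :
    -- 1. the law of the joint approximation, for real numbers, for all zeros and for the simple zeros of `Z`
    (∀ (r : ℕ) (h e : Fin r → ℝ) (K : Fin r → Set ℂ) (A : Fin r → Set (ℂ → ℂ)), Admissible h e K →
      ∃ D : Set ℝ, D.Countable ∧ ∀ x : ℝ, x ∉ D →
        Tendsto (fun T : ℝ => (volume (J h e K A x ∩ Icc 0 T)).toReal / T) atTop (𝓝 (P e K A x)) ∧
        Tendsto (fun T : ℝ => (NIn T (J h e K A x) : ℝ) / N T) atTop (𝓝 (P e K A x)) ∧
        ∀ ε : ℝ, 0 < ε → ∀ᶠ T : ℝ in atTop,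
          ((2 - c) * P e K A x - ε) * (N T : ℝ) ≤ ((simpleZeros T (J h e K A x)).ncard : ℝ)) ∧
    -- 2. the targets
    (∀ (r : ℕ) (h : Fin r → ℝ) (K : Fin r → Set ℂ) (f : Fin r → ℂ → ℂ), Admissible h 1 K →
      List.TFAE [
        ∀ j, IsTarget (K j) (f j),
        ∀ ε : ℝ, 0 < ε → ∃ κ : ℝ, 0 < κ ∧ ∀ᶠ T : ℝ in atTop,
          κ * (N T : ℝ) ≤ ((simpleZeros T (J h 1 K (fun j => {f j}) ε)).ncard : ℝ),
        ∀ ε : ℝ, 0 < ε → ∃ κ : ℝ, 0 < κ ∧ ∃ᶠ T : ℝ in atTop,
          κ * (N T : ℝ) ≤ (NIn T (J h 1 K (fun j => {f j}) ε) : ℝ)]) ∧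
    -- the dilations
    (∀ h : Fin 1 → ℝ, 0 < h 0 → Indep h) ∧
    (∀ (r : ℕ) (h : Fin r → ℝ), (∀ j, IsAlgebraic ℚ (h j)) → LinearIndependent ℚ h → Indep h) ∧
    -- the constant
    0.6725 < 2 - c := by
  have hcc : c = H370.cMTinv := rfl
  refine ⟨?_, ?_, ?_, ?_, ?_⟩
  · intro r h e K A ha
    obtain ⟨C, hC, hl⟩ := (dat ha A).law
    refine ⟨C, hC, fun x hx => ?_⟩
    obtain ⟨h1, h2⟩ := hl x hx
    obtain ⟨h3, h4, h5, -⟩ := zr_all (dat ha A).apx h1
    rw [h2, dat_P ha A x] at h3 h4 h5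
    rw [dat_S ha A x] at h3 h4 h5
    refine ⟨h3, ?_, ?_⟩
    · rw [Metric.tendsto_nhds]
      intro ε hε
      filter_upwards [h4 (ε / 2) (by positivity), Pool.Agent.H4.UZ.NN_tendsto.eventually_gt_atTop 0] with T g1 g2
      rw [← NIn_eq, ← N_eq] at g1
      rw [← N_eq] at g2
      rw [Real.dist_eq, div_sub' g2.ne', abs_div, abs_of_pos g2, div_lt_iff₀ g2, mul_comm (N T : ℝ)]
      refine lt_of_le_of_lt g1 ?_
      nlinarith
    · intro ε hε
      filter_upwards [h5 ε hε] with T g1
      rw [← N_eq] at g1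
      rw [hcc]
      exact g1.trans (by exact_mod_cast zS_le T _)
  · intro r h K f ha
    obtain ⟨t1, t2⟩ := (dat ha (fun j => {f j})).targets f (fun j => rfl) (fun j => (ha.2.2.2 j).2)
    tfae_have 1 → 2 := by
      intro hT ε hε
      obtain ⟨κ, hκ, h1⟩ := t1 hT ε hε
      refine ⟨κ, hκ, ?_⟩
      filter_upwards [h1] with T g1
      rw [dat_S ha _ ε, ← N_eq] at g1
      exact g1.trans (by exact_mod_cast zS_le T _)
    tfae_have 2 → 3 := by
      intro hT ε hε
      obtain ⟨κ, hκ, h1⟩ := hT ε hε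
      refine ⟨κ, hκ, (h1.mono fun T g1 => ?_).frequently⟩
      exact g1.trans (by exact_mod_cast simpleZeros_le T _)
    tfae_have 3 → 1 := by
      intro hT j
      refine t2 (fun ε hε => ?_) j
      obtain ⟨κ, hκ, h1⟩ := hT ε hε
      refine ⟨κ, hκ, h1.mono fun T g1 => ?_⟩
      rw [dat_S ha _ ε, ← N_eq, ← NIn_eq]
      exact g1
    tfae_finish
  · exact fun h h0 => Pool.Agent.H4.UZ.indep_one h h0.ne'
  · exact fun r h ha hl => Pool.Agent.H4.UZ.indep_alg h ha hl
  · have := Pool.Agent.Q97.UM.cMT_strict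
    rw [hcc]
    linarith

end Pool.Agent.Results.MP_6bc78b_nt.UniversalityAtSimpleZeros
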